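import Pool.Agent.X180.OK.Eq
import Pool.Agent.X180.OJ.PairBase

/-!
# Effective divisors of small numerical dimension on varieties with trivial canonical class, over
orbifold bases

Let `X` be a normal projective variety with `K_X ~ 0` and `L` an effective `ℚ`-divisor on `X`. As only
the support of `L` matters in the conclusion, the coefficients of `L` may be taken `≥ 1`: then there are
no conditions on ramification along `L`. Let

  `X ⇢ W_l ⇢ ... ⇢ W_1 ⇢ W_0`, `l ≥ 0`,

be dominant rational maps. Suppose:

* (the base) for some `m > 0` there are `m`-canonical forms on `W_0`, not all zero, with `k ≥ 0`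
  algebraically independent ratios, with poles of order at most `m (1 - max (1 - L P) 0 / ν)` at the
  place `p` of the function field of `W_0`, if the prime divisor `P` of `X` lies over `p`, with
  multiplicity `ν`. That is, the Kodaira dimension of the orbifold base of `(X, L)` over `W_0` is at
  least `k`. (`W_0` may be any rational variety, in particular.)
* (the steps of the tower) for each `i < l` the fibres of `W_{i+1}` over `W_i`, of dimension `e_i`,
  *with the boundary and the multiplicities of the fibres of `(X, L)` over `W_{i+1}`*, correspond to the
  product of one orbifold `V_i` (which does not depend on the point of `W_i`) and of moving log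
  canonical arrangements: there are a variety `X'` with a generically finite map `X' ⇢ X` (ramified
  anywhere) and a rational map of `X'` to `V_i × P^{r_1} × ... × P^{r_c}`, `r_j ≥ 1`, which is dominant
  on the fibres of `X'` over `W_i`, and whose fibres (over `W_i`) are, up to finite maps, the fibres of
  `X' ⇢ W_{i+1}`; `a (p) ≥ 0` is the log discrepancy of an orbifold divisor at the places `p` of `V_i`
  in the image of the prime divisors of `X` (`a (p) = 0` is allowed: logarithmic poles), and the
  Kodaira dimension of `(V_i, a)` is at least `h_i`; in each `P^{r_j}` there are any hyperplanes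
  `A j k = 0`, in any position, which move with the point of a variety finite over `W_i`, with weights
  `w j k ≥ 0`, such that the arrangement is log canonical (the sum of the weights of hyperplanes with a
  common point is at most the codimension of their intersection) and `∑ k, w j k ≥ r_j + 1`. Let `Q` be
  a place of the function field of `X'` over a prime divisor `P` of `X` with `L P < 1` which dominates
  `W_i` but not `W_{i+1}`, with ramification index `ε`, let `e j k` be the multiplicities of the
  hyperplanes at `Q`, and `R = ∑ (mx_j - ∑ w j k e j k)`, where `mx_j` is the greatest sum of `r_j + 1`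
  of the `e j k` whose hyperplanes have no common point. Then `ε (1 - L P) ≤ ν a (p) + R` if `Q` lies
  over the place `p` of `V_i`, with ramification index `ν`; and if `Q` dominates `V_i` then
  `ε (1 - L P) ≤ R`, or `ε (1 - L P) ≤ 1` if all `e j k` are zero. Let `λ_i` be the sum of `h_i` and of
  the `r_j` with `∑ k, w j k > r_j + 1`.
* (the fibres of `X` over `W_l`) there is a correspondence `X'` as above between `X` and a relative
  product `P^{r_1} × ... × P^{r_c}` over `W_l` (`c = 0` is allowed), with log canonical moving hyperplane
  arrangements with weights in `[0, 1]` (with any sum) and `ε (1 - L P) ≤ R` (`ε (1 - L P) ≤ 1`, if all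
  `e j k` are zero) at the prime divisors `P` of `X` with `L P < 1` which dominate `W_l`; and at the
  places over the prime divisors of the product `K_X + L` is at most the pull back of the log
  canonical divisor of the arrangement (`Cor`). Let `λ` be the sum of the `r_j` with
  `∑ k, w j k > r_j + 1`. (For instance the fibres may be isogenous to products of elliptic curves,
  which are double covers of `P^1` with four branch points: here `∑ k, w j k = r_j + 1` for all `j`,
  and `λ = 0`.)

Let `p` be a natural number with `p ≤ k + ∑ λ_i + λ`. Then `∑ k, w j k ≥ r_j + 1` for all `j` (for the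
fibres over `W_l`), and

  `κ(L') = ν(L') = p`

for all effective `ℚ`-divisors `L'` with `Supp L' = Supp L` and `ν(L') ≤ p`.

Relation with the question: let `X` be a projective hyperkähler manifold of dimension `2 p`, and let
`L'` be a nef parabolic line bundle, `L' ≠ 0`, some multiple of which has a section with the support of
`L`. Then `ν(L') = p` by Fujiki's relation, so `κ(L') = ν(L')`, and `K_X + t L' ~ t L'` is nef and
abundant, and a klt adjoint divisor for small `t > 0`; so `L'` is semiample (Kawamata 1985).

Notation: `X` is given by the homogeneous coordinates `y` of its generic point, with values in the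
function field `K`; prime divisors are places `P` of `K`, `P.ord` is the order along `P`. `E i` is the
function field of `W_i`. `iitakaDim` and `nuDim` are the literal definitions of the Iitaka and of the
numerical dimension of a divisor by means of the dimensions of the spaces of sections of `m L'` and of
`m L' + A`. Definitions: `Pool/Agent/X180/OJ/Defs` (`JointFibres`, `IsTower`), `OK/Defs`
(`TorsionCanonical`, `SameSupport`, `iitakaDim`, `nuDim`), `OP/Defs`, `OJ/PairBaseDefs` (`BaseKodGe`).

Proof: the forms of a step are products of the pull backs of the forms of `V_i`, of determinants of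
logarithmic derivatives of the linear forms, and of one joint Wronskian of the coordinates of `V_i` and
of the `P^{r_j}`; locally, at `Q`, one compares with the arrangement enlarged by a simplex of
logarithmic coordinates of `V_i` at `p` (`Pool.Agent.X180.OJ.joint_est`). The coefficients are
algebraic over the function field of `W_{i+1}`, and their norms are estimated at the prime divisors of
`X` (`Pool.Agent.X180.OJ.joint_part`). The forms of the steps and of the base are multiplied along
adapted regular vector fields, and with powers of the canonical form without zeros, which gives the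
lower bound for `κ(L')`; and `κ(L') ≤ ν(L') ≤ p` (`Pool.Agent.X180.OK.iso_tow`).
-/

set_option autoImplicit false

open FF Pool.Agent.W602.GT Pool.Agent.Y172 Pool.Agent.Y191
open Pool.Agent.X180.OP (Fibres big)
open Pool.Agent.X180.OJ (IsTower BaseKodGe pair_base)
open Pool.Agent.X180.OK

namespace Pool.Agent.Results.MP_be00df_ag.DivisorsOverOrbifoldBases

/-- **Abundance for divisors of small numerical dimension.** Let `X` be a normal projective variety
with `K_X ~ 0`, `L` an effective `ℚ`-divisor, and `X ⇢ W_l ⇢ ... ⇢ W_0` a tower such that the orbifold
base of `(X, L)` over `W_0` has Kodaira dimension at least `k`, the steps, with the boundary `L`, are as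
in `JointFibres`, of dimensions `e i` and log Kodaira dimensions `lam i`, and the fibres of `X` over
`W_l` are as in `Fibres`. Let `p ≤ k + ∑ i, lam i + big`. Then `r j + 1 ≤ ∑ i, w j i` for all `j`, and for
all effective `ℚ`-divisors `L'` with the same support as `L` whose numerical dimension is at most `p`,
the Iitaka dimension and the numerical dimension are `p`, and `k + ∑ i, lam i + big = p`. -/
theorem result (K : Type) [Field K] [Algebra ℂ K] (N l c k p : ℕ)
    (E : Fin (l + 1) → IntermediateField ℂ K) (D : Fin (l + 1) → ℕ) (e lam : Fin l → ℕ)
    (r s : Fin c → ℕ) (y : Fin (N + 1) → K) (L : Place ℂ K → ℚ)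
    (hy : NormalModel y) (hn : Algebra.trdeg ℂ K = (D (Fin.last l) + ∑ j, r j : ℕ))
    (hK : TorsionCanonical y (D (Fin.last l) + ∑ j, r j) 1)
    (hL : Effective y L) [Algebra.EssFiniteType ℂ (E 0)]
    (hY : BaseKodGe {P | IsPrimeDivisor y P} (fun P => (L P : ℝ)) (E 0) (D 0) k)
    (hT : IsTower {P | IsPrimeDivisor y P} (fun P => (L P : ℝ)) E D e lam)
    (w : ∀ j, Fin (s j) → ℚ)
    (hF : Fibres y (D (Fin.last l) + ∑ j, r j) L {P | IsPrimeDivisor y P ∧ L P < 1}
      (E (Fin.last l)) r s w)
    (hp : p ≤ k + ∑ i, lam i + big r s w) :
    (∀ j, (r j + 1 : ℚ) ≤ ∑ i, w j i) ∧ ∀ L', SameSupport y L L' →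
      (∀ A, Effective y A → Integral y A → nuDim y L' A ≤ (p : EReal)) →
      k + ∑ i, lam i + big r s w = p ∧ iitakaDim y L' = (p : WithBot ℕ) ∧
      ∀ A, Effective y A → Integral y A → nuDim y L' A = (p : EReal) := by
  have hn' : D (Fin.last l) + ∑ j, r j = D 0 + (∑ i, e i + ∑ j, r j) := by
    rw [Pool.Agent.X180.TP.dims fun i => (hT.2 i).2.1, add_assoc]
  have hK' : Algebra.trdeg ℂ K = (D 0 + (∑ i, e i + ∑ j, r j) : ℕ) := by
    rw [← hn']
    exact hn
  exact iso_tow hy hn hK hL hT hF (fun lam' h0 => pair_base hK' (hT.1 0)
    (fun P hP => Rat.cast_nonneg.2 (hL.1 P hP)) hY h0) hp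

end Pool.Agent.Results.MP_be00df_ag.DivisorsOverOrbifoldBases
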